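import Pool.Agent.H76.AB.Res
import Pool.Agent.H76.AB.CORE
import Pool.Agent.H1.AB.EX2
import Pool.Agent.H12.AB.SEQ
import Pool.Agent.H32.AB.ANC
import Pool.Agent.H34.AB.RAMA
import Pool.Agent.H34.AB.RAM
import Pool.Agent.H36.AB.ORI
import Pool.Agent.H36.AB.COL
import Pool.Agent.H57.AB.EX1
import Pool.Agent.H57.AB.EX
import Pool.Agent.H63.AB.WORD
import Pool.Agent.H63.AB.FREE
import Pool.Agent.H78.AB.PRUNE
import Pool.Agent.H78.AB.TFREE
import Pool.Agent.H88.AB.LFG
import Pool.Agent.H88.AB.EMB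
import Pool.Agent.H90.AB.RAMB

set_option autoImplicit false

/-!
# Every tree that is not a star is `s_q`-abundant
-/

namespace Pool.Agent.Results.MP_34e65c_co.AllTrees

open SimpleGraph Function

/-- `G` is `q`-Ramsey for `H`: every colouring of the edges of `G` with `q` colours contains a monochromatic copy of
`H` (a subgraph of `G` isomorphic to `H`, not necessarily induced). -/
def IsRamsey {V W : Type} (q : ℕ) (H : SimpleGraph W) (G : SimpleGraph V) : Prop :=
  ∀ c : G.edgeSet → Fin q, ∃ (j : Fin q) (f : W → V) (_ : Injective f)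
    (h : ∀ x y, H.Adj x y → G.Adj (f x) (f y)), ∀ (x y : W) (hxy : H.Adj x y), c ⟨s(f x, f y), h x y hxy⟩ = j

/-- `G` is minimal `q`-Ramsey for `H`: it is `q`-Ramsey for `H` and no proper subgraph is. -/
def IsMinRamsey {V W : Type} (q : ℕ) (H : SimpleGraph W) (G : SimpleGraph V) : Prop :=
  IsRamsey q H G ∧ ∀ S : G.Subgraph, S ≠ ⊤ → ¬ IsRamsey q H S.coe

open Classical in
/-- `s_q(H)`: the smallest minimum degree of a minimal `q`-Ramsey graph for `H`. -/
noncomputable def sq {W : Type} (q : ℕ) (H : SimpleGraph W) : ℕ :=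
  sInf {d : ℕ | ∃ (N : ℕ) (G : SimpleGraph (Fin N)), IsMinRamsey q H G ∧ G.minDegree = d}

open Classical in
/-- `H` is `s_q`-abundant: for every `k` some (finite) minimal `q`-Ramsey graph for `H` has at least `k` vertices of
degree exactly `s_q(H)`. -/
def Abundant {W : Type} (q : ℕ) (H : SimpleGraph W) : Prop :=
  ∀ k : ℕ, ∃ (N : ℕ) (G : SimpleGraph (Fin N)), IsMinRamsey q H G ∧
    k ≤ (Finset.univ.filter (fun v => G.degree v = sq q H)).card

/-- a star `K_{1,n}`, `n ≥ 0`: the edges are exactly the pairs that contain a fixed vertex `x` -/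
def IsStar {W : Type} (T : SimpleGraph W) : Prop := ∃ x, ∀ a b, T.Adj a b ↔ a ≠ b ∧ (a = x ∨ b = x)

theorem isMinRamsey_iff {V W : Type} (q : ℕ) (hq : 1 ≤ q) (H : SimpleGraph W) (G : SimpleGraph V) :
    IsMinRamsey q H G ↔ H76.AB.MinR q H G := by
  unfold IsMinRamsey H76.AB.MinR
  have h1 : IsRamsey q H G ↔ H76.AB.Ramsey q H G := H76.AB.ramseyE_iff q hq H G
  have h2 : ∀ S : G.Subgraph, IsRamsey q H S.coe ↔ H76.AB.Ramsey q H S.coe :=
    fun S => H76.AB.ramseyE_iff q hq H S.coe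
  rw [h1]
  constructor
  · rintro ⟨a, b⟩
    exact ⟨a, fun S hS h => b S hS ((h2 S).2 h)⟩
  · rintro ⟨a, b⟩
    exact ⟨a, fun S hS h => b S hS ((h2 S).1 h)⟩

theorem notStar {W : Type} (T : SimpleGraph W) (hT : T.IsTree) (h : ¬ IsStar T) : H76.AB.NotStar T := by
  rintro ⟨x, hx⟩
  apply h
  refine ⟨x, fun a b => ⟨fun hab => ⟨hab.ne, ?_⟩, ?_⟩⟩
  · by_contra hcon
    push Not at hcon
    have h1 := hx a hcon.1
    have h2 := hx b hcon.2
    -- triangle x a b
    have h3 := hT.2 (Walk.cons h1 (Walk.cons hab (Walk.cons h2.symm Walk.nil)))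
    apply h3
    have hxa : x ≠ a := fun h => hcon.1 h.symm
    have hxb : x ≠ b := fun h => hcon.2 h.symm
    have hab' : a ≠ b := hab.ne
    rw [Walk.isCycle_def]
    refine ⟨?_, by simp, ?_⟩
    · rw [Walk.isTrail_def]
      simp only [Walk.edges_cons, Walk.edges_nil, List.nodup_cons, List.mem_cons, Sym2.eq_iff]
      simp
      tauto
    · simp only [Walk.support_cons, Walk.support_nil, List.tail_cons, List.nodup_cons, List.mem_cons]
      simp
      tauto
  · rintro ⟨hne, hab⟩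
    rcases hab with rfl | rfl
    · exact hx b (fun h => hne h.symm)
    · exact (hx a hne).symm

open Classical in
theorem main (hCORE : H76.AB.S_CORE) (n : ℕ) (T : SimpleGraph (Fin n)) (hT : T.IsTree) (hs : ¬ IsStar T) (q : ℕ)
    (hq : 2 ≤ q) : sq q T = 1 ∧ Abundant q T := by
  have hs' := notStar T hT hs
  have hne : Nonempty (Fin n) := hT.1.nonempty
  have hnb := H76.AB.tree_nbr T hT.1 hs'
  have hmany : ∀ k, ∃ (N : ℕ) (G : SimpleGraph (Fin N)), IsMinRamsey q T G ∧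
      k ≤ (Finset.univ.filter (fun v => G.degree v = 1)).card := by
    intro k
    obtain ⟨N, G, h1, h2⟩ := H76.AB.many T q k (by omega) hT hs' (hCORE (Fin n) T q k hT hs' hq)
    exact ⟨N, G, (isMinRamsey_iff q (by omega) T G).2 h1, h2⟩
  have hdeg : ∀ (N : ℕ) (G : SimpleGraph (Fin N)), IsMinRamsey q T G → 1 ≤ G.minDegree := by
    intro N G hG
    have hG' := (isMinRamsey_iff q (by omega) T G).1 hG
    have h1 := H76.AB.minR_nbr (by omega) hnb hG'
    have hN : Nonempty (Fin N) := by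
      obtain ⟨j, f, -, -⟩ := hG'.1 (fun _ => (⟨0, by omega⟩ : Fin q))
      exact ⟨f hne.some⟩
    apply G.le_minDegree_of_forall_le_degree
    intro v
    obtain ⟨x, hx⟩ := h1 v
    exact Nat.succ_le_of_lt ((G.degree_pos_iff_exists_adj v).2 ⟨x, hx⟩)
  have hsq : sq q T = 1 := by
    apply le_antisymm
    · obtain ⟨N, G, hG, hk⟩ := hmany 1
      obtain ⟨v, hv⟩ := Finset.card_pos.1 (Nat.lt_of_lt_of_le Nat.zero_lt_one hk)
      have hv' := (Finset.mem_filter.1 hv).2
      have h1 : G.minDegree ≤ 1 := by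
        rw [← hv']
        exact G.minDegree_le_degree v
      have h2 : sq q T ≤ G.minDegree := Nat.sInf_le ⟨N, G, hG, rfl⟩
      exact h2.trans h1
    · obtain ⟨N, G, hG, -⟩ := hmany 0
      have hnon : ({d : ℕ | ∃ (N : ℕ) (G : SimpleGraph (Fin N)), IsMinRamsey q T G ∧
        G.minDegree = d}).Nonempty := ⟨G.minDegree, N, G, hG, rfl⟩
      obtain ⟨N', G', hG', h2⟩ := Nat.sInf_mem hnon
      unfold sq
      rw [← h2]
      exact hdeg N' G' hG'
  refine ⟨hsq, ?_⟩
  intro k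
  obtain ⟨N, G, hG, hk⟩ := hmany k
  refine ⟨N, G, hG, ?_⟩
  rw [hsq]
  exact hk

theorem core : H76.AB.S_CORE :=
  H76.AB.t_CORE (H12.AB.t_SEQ H12.AB.t_SEQ1)
    (H57.AB.t_EX (Pool.Agent.H63.AB.t_FREE Pool.Agent.H63.AB.t_WORD) H57.AB.t_EX1 H1.AB.t_EX2)
    (H34.AB.t_RAM (H78.AB.t_PRUNE H32.AB.t_ANC) H32.AB.t_CASE
      (H34.AB.t_RAMA H88.AB.t_EMB H88.AB.t_INJ)
      (H90.AB.t_RAMB H88.AB.t_EMB H88.AB.t_INJ H88.AB.t_LFG))
    (H36.AB.t_COL H36.AB.t_ORI) (H78.AB.t_TFREE H12.AB.t_SEQ1)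

/-- **Every tree `T` that is not a star is `s_q`-abundant, for every `q ≥ 2`** (and `s_q(T) = 1`). -/
theorem result (n : ℕ) (T : SimpleGraph (Fin n)) (hT : T.IsTree) (hs : ¬ IsStar T) (q : ℕ) (hq : 2 ≤ q) :
    sq q T = 1 ∧ Abundant q T :=
  main core n T hT hs q hq

end Pool.Agent.Results.MP_34e65c_co.AllTrees
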